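import Pool.Agent.PRT.StmtsA

/-!
# Row HMF (squad PRT): the homeomorphism of a lift and of its iterates
-/

set_option autoImplicit false

namespace Pool.Agent.PRT.H19

open Set MeasureTheory Pool.Agent.PRT
open scoped ContDiff

theorem left_inv_iter {g h : E → E} (H : ∀ z, h (g z) = z) (m : ℕ) :
    ∀ z, h^[m] (g^[m] z) = z := by
  intro z
  exact (Function.LeftInverse.iterate (show Function.LeftInverse h g from H) m) z

theorem coe_pow_nat (G : E ≃ₜ E) (n : ℕ) (z : E) : (G ^ n) z = (fun y => G y)^[n] z := by
  induction n with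
  | zero => rfl
  | succ n ih =>
    rw [pow_succ', Function.iterate_succ_apply', ← ih]
    rfl

theorem hmf : HmfStmt := by
  intro g v C hL hv m hm
  obtain ⟨h, hh, hgl, hgr⟩ := hL.inv
  obtain ⟨G, hG⟩ : ∃ G : E ≃ₜ E, ∀ z, G z = g^[m] z := by
    refine ⟨{ toFun := g^[m]
              invFun := h^[m]
              left_inv := left_inv_iter hgl m
              right_inv := left_inv_iter hgr m
              continuous_toFun := hL.sm.continuous.iterate m
              continuous_invFun := hh.continuous.iterate m }, fun z => rfl⟩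
  refine ⟨G, hG, ?_⟩
  have hpow : ∀ (n : ℕ) (z : E), (G ^ n) z = g^[m * n] z := by
    intro n z
    rw [coe_pow_nat, Function.iterate_mul]
    have : (fun y => G y) = g^[m] := by
      funext y
      exact hG y
    rw [this]
  have hdev : ∀ (n : ℕ) (z : E), ‖(G ^ n) z - z - (n : ℝ) • ((m : ℝ) • v)‖ ≤ C := by
    intro n z
    have h1 := hL.dev (m * n) z
    rw [hpow, smul_smul]
    have h2 : (n : ℝ) * (m : ℝ) = ((m * n : ℕ) : ℝ) := by
      push_cast
      ring
    rw [h2]
    exact h1
  constructor
  · have h1 : (m : ℝ) ≠ 0 := by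
      have : m ≠ 0 := by omega
      exact_mod_cast this
    exact smul_ne_zero h1 hv
  · intro n z
    rcases Int.eq_nat_or_neg n with ⟨k, rfl | rfl⟩
    · rw [zpow_natCast]
      have := hdev k z
      simpa using this
    · have h1 := hdev k ((G ^ (-(k : ℤ))) z)
      have h2 : (G ^ k) ((G ^ (-(k : ℤ))) z) = z := by
        have h3 : (G ^ k) * (G ^ (-(k : ℤ))) = 1 := by
          rw [← zpow_natCast, ← zpow_add]
          simp
        have h4 := congrArg (fun F : E ≃ₜ E => F z) h3
        exact h4
      rw [h2] at h1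
      have h5 : (G ^ (-(k : ℤ))) z - z - ((-(k : ℤ) : ℤ) : ℝ) • ((m : ℝ) • v)
          = -(z - (G ^ (-(k : ℤ))) z - (k : ℝ) • ((m : ℝ) • v)) := by
        push_cast
        rw [neg_smul]
        abel
      rw [h5, norm_neg]
      exact h1

end Pool.Agent.PRT.H19
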