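import Pool.Agent.PRT.StmtsB

/-!
# Row IPL (squad PRT): interpolation (Landau-Kolmogorov)
-/

set_option autoImplicit false

namespace Pool.Agent.PRT.H19

open Set MeasureTheory Pool.Agent.PRT
open scoped ContDiff

/-- the second order estimate -/
theorem lk0 {V : Type} [NormedAddCommGroup V] [NormedSpace ℝ V] {f : E → V}
    (hf : ContDiff ℝ ∞ f) {a0 a2 δ : ℝ} (hδ : 0 < δ) (h0 : ∀ z, ‖f z‖ ≤ a0)
    (h2 : ∀ z, ‖fderiv ℝ (fderiv ℝ f) z‖ ≤ a2) (z : E) :
    ‖fderiv ℝ f z‖ ≤ 2 * a0 / δ + δ * a2 := by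
  have ha0 : 0 ≤ a0 := (norm_nonneg _).trans (h0 0)
  have ha2 : 0 ≤ a2 := (norm_nonneg (fderiv ℝ (fderiv ℝ f) 0)).trans (h2 0)
  have hd : Differentiable ℝ f := hf.differentiable (by simp)
  have hf' : ContDiff ℝ ∞ (fderiv ℝ f) := hf.fderiv_right (by simp)
  have hd' : Differentiable ℝ (fderiv ℝ f) := hf'.differentiable (by simp)
  apply ContinuousLinearMap.opNorm_le_of_unit_norm (by positivity)
  intro ξ hξ
  -- the derivative is Lipschitz
  have hlip : ∀ y, ‖fderiv ℝ f y - fderiv ℝ f z‖ ≤ a2 * ‖y - z‖ := by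
    intro y
    exact Convex.norm_image_sub_le_of_norm_fderiv_le (fun x _ => hd'.differentiableAt)
      (fun x _ => h2 x) convex_univ (Set.mem_univ z) (Set.mem_univ y)
  have hseg : ‖(f (z + δ • ξ) - fderiv ℝ f z (z + δ • ξ)) - (f z - fderiv ℝ f z z)‖
      ≤ (a2 * δ) * ‖(z + δ • ξ) - z‖ := by
    have hconv : Convex ℝ (Metric.closedBall z δ) := convex_closedBall z δ
    refine Convex.norm_image_sub_le_of_norm_hasFDerivWithin_le
      (f := fun y => f y - fderiv ℝ f z y) (f' := fun y => fderiv ℝ f y - fderiv ℝ f z)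
      (s := Metric.closedBall z δ) ?_ ?_ hconv ?_ ?_
    · intro x _
      exact ((hd x).hasFDerivAt.sub (fderiv ℝ f z).hasFDerivAt).hasFDerivWithinAt
    · intro x hx
      refine (hlip x).trans ?_
      rw [Metric.mem_closedBall, dist_eq_norm] at hx
      exact mul_le_mul_of_nonneg_left hx ha2
    · exact Metric.mem_closedBall_self hδ.le
    · rw [Metric.mem_closedBall, dist_eq_norm, add_sub_cancel_left, norm_smul, hξ, mul_one,
        Real.norm_eq_abs, abs_of_pos hδ]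
  rw [add_sub_cancel_left, norm_smul, hξ, mul_one, Real.norm_eq_abs, abs_of_pos hδ] at hseg
  have hid : (f (z + δ • ξ) - fderiv ℝ f z (z + δ • ξ)) - (f z - fderiv ℝ f z z)
      = (f (z + δ • ξ) - f z) - δ • (fderiv ℝ f z ξ) := by
    rw [map_add, map_smul]
    abel
  rw [hid] at hseg
  have h3 : ‖δ • (fderiv ℝ f z ξ)‖ ≤ 2 * a0 + a2 * δ * δ := by
    calc ‖δ • (fderiv ℝ f z ξ)‖
        = ‖(f (z + δ • ξ) - f z) - ((f (z + δ • ξ) - f z) - δ • (fderiv ℝ f z ξ))‖ := by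
          congr 1
          abel
      _ ≤ ‖f (z + δ • ξ) - f z‖ + ‖(f (z + δ • ξ) - f z) - δ • (fderiv ℝ f z ξ)‖ :=
          norm_sub_le _ _
      _ ≤ (‖f (z + δ • ξ)‖ + ‖f z‖) + a2 * δ * δ := add_le_add (norm_sub_le _ _) hseg
      _ ≤ 2 * a0 + a2 * δ * δ := by
          have h4 := h0 (z + δ • ξ)
          have h5 := h0 z
          linarith
  rw [norm_smul, Real.norm_eq_abs, abs_of_pos hδ] at h3
  have h6 : 2 * a0 / δ + δ * a2 = (2 * a0 + a2 * δ * δ) / δ := by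
    field_simp
  rw [h6, le_div_iff₀ hδ, mul_comm]
  exact h3

/-- the estimate for the derivative of order `j + 1` -/
theorem lk (j : ℕ) : ∀ (V : Type) [NormedAddCommGroup V] [NormedSpace ℝ V] (f : E → V)
    (_ : ContDiff ℝ ∞ f) (a0 a2 δ : ℝ) (_ : 0 < δ)
    (_ : ∀ z, ‖iteratedFDeriv ℝ j f z‖ ≤ a0) (_ : ∀ z, ‖iteratedFDeriv ℝ (j + 2) f z‖ ≤ a2)
    (z : E), ‖iteratedFDeriv ℝ (j + 1) f z‖ ≤ 2 * a0 / δ + δ * a2 := by
  induction j with
  | zero =>
    intro V _ _ f hf a0 a2 δ hδ h0 h2 z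
    have e1 : ‖iteratedFDeriv ℝ (0 + 1) f z‖ = ‖fderiv ℝ f z‖ := by
      rw [← norm_iteratedFDeriv_fderiv, norm_iteratedFDeriv_zero]
    rw [e1]
    refine lk0 hf hδ (fun y => ?_) (fun y => ?_) z
    · have := h0 y
      rwa [norm_iteratedFDeriv_zero] at this
    · have := h2 y
      have e2 : ‖iteratedFDeriv ℝ (0 + 2) f y‖ = ‖fderiv ℝ (fderiv ℝ f) y‖ := by
        rw [show (0 + 2 : ℕ) = (0 + 1) + 1 from rfl, ← norm_iteratedFDeriv_fderiv,
          ← norm_iteratedFDeriv_fderiv, norm_iteratedFDeriv_zero]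
      rwa [e2] at this
  | succ j ih =>
    intro V _ _ f hf a0 a2 δ hδ h0 h2 z
    rw [← norm_iteratedFDeriv_fderiv]
    refine ih (E →L[ℝ] V) (fderiv ℝ f) (hf.fderiv_right (by simp)) a0 a2 δ hδ (fun y => ?_)
      (fun y => ?_) z
    · rw [norm_iteratedFDeriv_fderiv]
      exact h0 y
    · rw [norm_iteratedFDeriv_fderiv]
      exact h2 y

/-- the sequence lemma -/
theorem seqL (R : ℕ) : ∀ t : ℝ, 0 < t → ∃ K : ℝ, 0 ≤ K ∧ ∀ b : ℕ → ℝ, (∀ i, 0 ≤ b i) →
    (∀ j, j + 2 ≤ R + 1 → ∀ s : ℝ, 0 < s → b (j + 1) ≤ 2 * b j / s + s * b (j + 2)) →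
      ∀ k ≤ R, b k ≤ K * b 0 + t * b (R + 1) := by
  induction R with
  | zero =>
    intro t ht
    refine ⟨1, zero_le_one, fun b hb _ k hk => ?_⟩
    obtain rfl : k = 0 := by omega
    have h1 := mul_nonneg ht.le (hb (0 + 1))
    linarith
  | succ R ih =>
    intro t ht
    obtain ⟨s, hs0, hs1, hs2⟩ : ∃ s : ℝ, 0 < s ∧ s ≤ 1 ∧ 2 * s ≤ t := by
      refine ⟨min (t / 2) 1, lt_min (by linarith) one_pos, min_le_right _ _, ?_⟩
      have := min_le_left (t / 2) 1
      linarith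
    obtain ⟨K, hK0, hK⟩ := ih (s / 4) (by linarith)
    refine ⟨4 * K / s + 2 * K, by positivity, fun b hb hrec k hk => ?_⟩
    have h1 := hK b hb (fun j hj => hrec j (by omega))
    have hb0 := hb 0
    have hbR := hb (R + 1)
    have hbR2 := hb (R + 1 + 1)
    have h2 := hrec R (by omega) s hs0
    have h3 := h1 R le_rfl
    -- the bound for `b (R + 1)`
    have h4 : b (R + 1) ≤ 4 * K / s * b 0 + 2 * s * b (R + 1 + 1) := by
      have h5 : 2 * b R / s ≤ 2 * (K * b 0 + s / 4 * b (R + 1)) / s := by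
        apply div_le_div_of_nonneg_right _ hs0.le
        linarith
      have h6 : 2 * (K * b 0 + s / 4 * b (R + 1)) / s = 2 * K / s * b 0 + b (R + 1) / 2 := by
        field_simp
        ring
      have h7 : 4 * K / s * b 0 = 2 * (2 * K / s * b 0) := by ring
      have h8 : b (R + 2) = b (R + 1 + 1) := rfl
      rw [h8] at h2
      rw [h6] at h5
      rw [h7]
      linarith
    rcases Nat.lt_or_ge R k with hkR | hkR
    · obtain rfl : k = R + 1 := by omega
      have h9 : 0 ≤ 2 * K * b 0 := by positivity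
      have h10 : 2 * s * b (R + 1 + 1) ≤ t * b (R + 1 + 1) :=
        mul_le_mul_of_nonneg_right hs2 hbR2
      nlinarith
    · have h9 := h1 k hkR
      have h10 : s / 4 * b (R + 1) ≤ s / 4 * (4 * K / s * b 0 + 2 * s * b (R + 1 + 1)) :=
        mul_le_mul_of_nonneg_left h4 (by linarith)
      have h11 : s / 4 * (4 * K / s * b 0 + 2 * s * b (R + 1 + 1))
          = K * b 0 + s ^ 2 / 2 * b (R + 1 + 1) := by
        field_simp
        ring
      have h12 : s ^ 2 / 2 * b (R + 1 + 1) ≤ t * b (R + 1 + 1) := by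
        apply mul_le_mul_of_nonneg_right _ hbR2
        nlinarith
      have h13 : 0 ≤ 4 * K / s * b 0 := by positivity
      rw [h11] at h10
      nlinarith

theorem ipl : IplStmt := by
  intro R
  rcases Nat.eq_zero_or_pos R with hR | hR
  · subst hR
    refine ⟨1, ?_⟩
    intro V _ _ ψ A L δ B hψ hB hδ hA hL k hk z
    obtain rfl : k = 0 := by omega
    have h1 := hL z
    have h2 := (norm_nonneg _).trans (hA z)
    simp only [pow_zero, one_mul, Nat.cast_one]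
    linarith
  · obtain ⟨S, rfl⟩ : ∃ S, R = S + 1 := ⟨R - 1, by omega⟩
    obtain ⟨K, hK0, hK⟩ := seqL S 1 one_pos
    refine ⟨⌈K⌉₊ + 1, ?_⟩
    intro V _ _ ψ A L δ B hψ hB hδ hA hL k hk z
    have hbdd : ∀ i ≤ S + 1, BddAbove (range fun z => ‖iteratedFDeriv ℝ i ψ z‖) := by
      intro i hi
      refine ⟨B, ?_⟩
      rintro _ ⟨y, rfl⟩
      exact hB i hi y
    obtain ⟨a, ha⟩ : ∃ a : ℕ → ℝ, ∀ i, a i = ⨆ z, ‖iteratedFDeriv ℝ i ψ z‖ := ⟨_, fun i => rfl⟩
    have hle : ∀ i ≤ S + 1, ∀ y, ‖iteratedFDeriv ℝ i ψ y‖ ≤ a i := by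
      intro i hi y
      rw [ha]
      exact le_ciSup (hbdd i hi) y
    have hnn : ∀ i, 0 ≤ a i := by
      intro i
      rw [ha]
      exact Real.iSup_nonneg fun y => norm_nonneg _
    have hrec : ∀ j, j + 2 ≤ S + 1 → ∀ s : ℝ, 0 < s → a (j + 1) ≤ 2 * a j / s + s * a (j + 2) := by
      intro j hj s hs
      rw [ha (j + 1)]
      apply ciSup_le
      intro y
      exact lk j V ψ hψ (a j) (a (j + 2)) s hs (hle j (by omega)) (hle (j + 2) hj) y
    have hmain := hK (fun i => δ ^ i * a i) (fun i => mul_nonneg (pow_nonneg hδ.le i) (hnn i))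
      (by
        intro j hj s hs
        have h1 := hrec j hj (δ * s) (mul_pos hδ hs)
        have h2 : δ ^ (j + 1) * a (j + 1)
            ≤ δ ^ (j + 1) * (2 * a j / (δ * s) + δ * s * a (j + 2)) :=
          mul_le_mul_of_nonneg_left h1 (pow_nonneg hδ.le _)
        have h3 : δ ^ (j + 1) * (2 * a j / (δ * s) + δ * s * a (j + 2))
            = 2 * (δ ^ j * a j) / s + s * (δ ^ (j + 2) * a (j + 2)) := by
          field_simp
          ring
        linarith)
    have hA0 : a 0 ≤ A := by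
      rw [ha]
      apply ciSup_le
      intro y
      rw [norm_iteratedFDeriv_zero]
      exact hA y
    have hLS : a (S + 1) ≤ L := by
      rw [ha]
      exact ciSup_le hL
    have hδS : 0 ≤ δ ^ (S + 1) := pow_nonneg hδ.le _
    have hb1 : δ ^ (S + 1) * a (S + 1) ≤ δ ^ (S + 1) * L := mul_le_mul_of_nonneg_left hLS hδS
    have hb1' : 0 ≤ δ ^ (S + 1) * a (S + 1) := mul_nonneg hδS (hnn _)
    have hA' := hnn 0
    have hKc : K ≤ (⌈K⌉₊ : ℝ) := Nat.le_ceil K
    have hz : δ ^ k * ‖iteratedFDeriv ℝ k ψ z‖ ≤ δ ^ k * a k :=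
      mul_le_mul_of_nonneg_left (hle k hk z) (pow_nonneg hδ.le _)
    have hc : ((⌈K⌉₊ + 1 : ℕ) : ℝ) = (⌈K⌉₊ : ℝ) + 1 := by push_cast; ring
    rw [hc]
    have hKA : K * a 0 ≤ (⌈K⌉₊ : ℝ) * A := mul_le_mul hKc hA0 hA' (hK0.trans hKc)
    have hcL : 0 ≤ (⌈K⌉₊ : ℝ) * (δ ^ (S + 1) * L) :=
      mul_nonneg (hK0.trans hKc) (hb1'.trans hb1)
    have hAA : 0 ≤ A := hA'.trans hA0
    have hcA : 0 ≤ (⌈K⌉₊ : ℝ) * A := mul_nonneg (hK0.trans hKc) hAA
    rcases Nat.lt_or_ge S k with hkS | hkS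
    · obtain rfl : k = S + 1 := by omega
      nlinarith
    · have h5 := hmain k hkS
      simp only [pow_zero, one_mul] at h5
      nlinarith

end Pool.Agent.PRT.H19
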